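import Pool.Agent.X217.SI.Gen
import Pool.Agent.X217.EK.Fin

/-!
# The `2 ^ ∞`-Selmer group of the quotient by a point of order two
-/

set_option autoImplicit false
set_option linter.unusedSectionVars false

namespace Pool.Agent.X217.SI

open WeierstrassCurve Pool.Agent.TH841.SH.D

open Pool.Agent.Y667.BK (SelInf selInfCoc cobInf IsSelInf IsTor2 IsCobInf tor_add tor_neg)

open Pool.Agent.Y676.IS (cls cls_surj cls_add cls_zero_iff cls_eq cob_shaCoc exists_NH sha_cls NH)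

open Pool.Agent.X217.NS (card_le_of_ker)

open Pool.Agent.TH841.LS (WI T0)

open Pool.Agent.TH841.PT (EQ isR_EQ)

open Pool.Agent.TH841.SH (IsR)

attribute [-instance] DivisionRing.toRatAlgebra

variable {A B : ℤ}

/-- the rational points of the curve -/
lemma fx_EQ (h : A ≠ B) (hA : A ≠ 0) (hB : B ≠ 0) :
    AddGroup.FG (Fx (EQ A B)) ∧ Module.finrank ℤ (Fx (EQ A B)) = rk (EQ A B) := by
  obtain ⟨j, hinj, hfix, hj⟩ : ∃ j : (EQ A B).toAffine.Point →+ PC (EQ A B),
      Function.Injective j ∧ (∀ (σ : Gal ℚ) (P : (EQ A B).toAffine.Point),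
        act (EQ A B) σ.toAlgHom (j P) = j P) ∧
      ∀ P : PC (EQ A B), (∀ σ : Gal ℚ, act (EQ A B) σ.toAlgHom P = P) → ∃ q, j q = P :=
    Pool.Agent.TH841.SH.exists_rat (EQ A B)
  let j' : (EQ A B).toAffine.Point →+ Fx (EQ A B) :=
    AddMonoidHom.mk' (fun P => ⟨j P, fun σ => hfix σ P⟩) (fun P Q => Subtype.ext (map_add j P Q))
  have hb : Function.Bijective j' := by
    refine ⟨fun P Q h => hinj (congrArg Subtype.val h), fun P => ?_⟩
    obtain ⟨q, hq⟩ := hj P.1 P.2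
    exact ⟨q, Subtype.ext hq⟩
  have hfg := Pool.Agent.Y667.BK.fg_pts (isR_EQ A B) hA.symm hB.symm h
  have e := AddEquiv.ofBijective j' hb
  refine ⟨?_, ?_⟩
  · have := hfg
    exact AddGroup.fg_of_surjective hb.2
  · exact e.toIntLinearEquiv.finrank_eq.symm

/-- the points of order two of the quotient -/
lemma two_WI (h : A ≠ B) (hA : A ≠ 0) (hB : B ≠ 0) :
    Finite {x : Fx (WI A B) // x + x = 0} ∧ Nat.card {x : Fx (WI A B) // x + x = 0} ≤ 8 := by
  classical
  obtain ⟨ψ, φ, h1, h2, h3⟩ := exists_NH h hA hB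
  have a1 : ((0 : ℤ) : ℚ) ≠ A := by exact_mod_cast hA.symm
  have a2 : ((0 : ℤ) : ℚ) ≠ B := by exact_mod_cast hB.symm
  have a3 : (A : ℚ) ≠ B := by exact_mod_cast h
  have c4 := Pool.Agent.Y833.SX.card4 (isR_EQ A B) a1 a2 a3
  have f4 : ({T : PC (EQ A B) | T + T = 0} : Set (PC (EQ A B))).Finite :=
    Nat.finite_of_card_ne_zero (α := {T : PC (EQ A B) // T + T = 0}) (by rw [c4]; norm_num)
  have hk : ((ψ.f (AlgebraicClosure ℚ)).ker : Set (PC (WI A B))) ⊆
      {0, T0 h (AlgebraicClosure ℚ)} := by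
    intro P hP
    rcases h3 _ P hP with h4 | h4
    · exact Or.inl h4
    · exact Or.inr h4
  have hkf : ((ψ.f (AlgebraicClosure ℚ)).ker : Set (PC (WI A B))).Finite :=
    (Set.toFinite _).subset hk
  have hk2 : Nat.card (ψ.f (AlgebraicClosure ℚ)).ker ≤ 2 := by
    have k1 : ((ψ.f (AlgebraicClosure ℚ)).ker : Set (PC (WI A B))).ncard ≤ 2 :=
      (Set.ncard_le_ncard hk (Set.toFinite _)).trans (Set.ncard_insert_le _ _ |>.trans (by simp))
    exact k1
  have hkf' : Finite (ψ.f (AlgebraicClosure ℚ)).ker := hkf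
  obtain ⟨g1, g2⟩ := card_le_of_ker (ψ.f (AlgebraicClosure ℚ)) hkf'
    (S := {P : PC (WI A B) | P + P = 0}) (T := {P : PC (EQ A B) | P + P = 0}) f4
    (fun P hP => by
      have hP' : P + P = 0 := hP
      change ψ.f _ P + ψ.f _ P = 0
      rw [← map_add, hP', map_zero])
  have c4' : Nat.card ({P : PC (EQ A B) | P + P = 0} : Set (PC (EQ A B))) = 4 := c4
  rw [c4'] at g2
  let F : {x : Fx (WI A B) // x + x = 0} → ({P : PC (WI A B) | P + P = 0} : Set (PC (WI A B))) :=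
    fun x => ⟨x.1.1, congrArg Subtype.val x.2⟩
  have hF : Function.Injective F := by
    intro x y hxy
    have h5 : x.1.1 = y.1.1 := congrArg (fun z => z.1) hxy
    exact Subtype.ext (Subtype.ext h5)
  refine ⟨Finite.of_injective F hF, ?_⟩
  have := Nat.card_le_card_of_injective F hF
  omega

/-- the quotient modulo two of the rational points of the quotient curve -/
theorem q2_WI (h : A ≠ B) (hA : A ≠ 0) (hB : B ≠ 0) :
    Finite (Q2 (WI A B)) ∧ Nat.card (Q2 (WI A B)) ≤ 2 ^ rk (EQ A B) * 8 := by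
  classical
  obtain ⟨ψ, φ, h1, h2, h3⟩ := exists_NH h hA hB
  obtain ⟨e1, e2⟩ := fx_EQ h hA hB
  let g : Fx (WI A B) →+ Fx (EQ A B) := AddMonoidHom.mk'
    (fun P => ⟨ψ.f _ P.1, fun σ => by rw [ψ.nat, P.2 σ]⟩)
    (fun P Q => Subtype.ext (map_add (ψ.f _) P.1 Q.1))
  let G : Fx (WI A B) →ₗ[ℤ] Fx (EQ A B) := g.toIntLinearMap
  have hME : Module.Finite ℤ (Fx (EQ A B)) := Module.Finite.iff_addGroup_fg.2 e1
  have hker : Finite (LinearMap.ker G) := by
    let F : LinearMap.ker G → ({0, T0 h (AlgebraicClosure ℚ)} : Set (PC (WI A B))) := fun x =>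
      ⟨x.1.1, by
        have hx : ψ.f _ x.1.1 = 0 := congrArg Subtype.val (LinearMap.mem_ker.1 x.2)
        rcases h3 _ _ hx with h4 | h4
        · exact Or.inl h4
        · exact Or.inr h4⟩
    refine Finite.of_injective F fun x y hxy => ?_
    have h5 : x.1.1 = y.1.1 := congrArg (fun z => z.1) hxy
    exact Subtype.ext (Subtype.ext h5)
  have hq : Module.Finite ℤ (Fx (WI A B) ⧸ LinearMap.ker G) :=
    Module.Finite.equiv G.quotKerEquivRange.symm
  have hMW : Module.Finite ℤ (Fx (WI A B)) := Module.Finite.of_submodule_quotient (LinearMap.ker G)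
  have hfg : AddGroup.FG (Fx (WI A B)) := Module.Finite.iff_addGroup_fg.1 hMW
  have htor : LinearMap.ker G ≤ Submodule.torsion ℤ (Fx (WI A B)) := by
    intro x hx
    obtain ⟨n, hn, hn2⟩ := isOfFinAddOrder_iff_nsmul_eq_zero.1
      (isOfFinAddOrder_of_finite (⟨x, hx⟩ : LinearMap.ker G))
    rw [Submodule.mem_torsion_iff]
    refine ⟨⟨(n : ℤ), mem_nonZeroDivisors_of_ne_zero (by exact_mod_cast hn.ne')⟩, ?_⟩
    change (n : ℤ) • x = 0
    rw [natCast_zsmul]
    exact congrArg Subtype.val hn2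
  have hrk : Module.finrank ℤ (Fx (WI A B)) ≤ rk (EQ A B) := by
    rw [← finrank_quotient_eq_of_le_torsion htor, G.quotKerEquivRange.finrank_eq, ← e2]
    exact Submodule.finrank_le _
  have hc := Pool.Agent.Y214.SX.card_quot (Fx (WI A B)) hfg
  obtain ⟨t1, t2⟩ := two_WI h hA hB
  have hne : Nonempty {x : Fx (WI A B) // x + x = 0} := ⟨⟨0, add_zero 0⟩⟩
  have hpos : 0 < Nat.card {x : Fx (WI A B) // x + x = 0} := Nat.card_pos
  refine ⟨Nat.finite_of_card_ne_zero ?_, ?_⟩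
  · rw [hc]
    positivity
  · rw [hc]
    exact Nat.mul_le_mul (Nat.pow_le_pow_right (by norm_num) hrk) t2

/-- division by two on the quotient curve over the algebraic closure -/
lemma div_WI (h : A ≠ B) (hA : A ≠ 0) (hB : B ≠ 0) (P : PC (WI A B)) : ∃ Q, Q + Q = P := by
  classical
  obtain ⟨s, hs⟩ := IsAlgClosed.exists_pow_nat_eq ((A : ℤ) : AlgebraicClosure ℚ) (n := 2)
    (by norm_num)
  obtain ⟨t, ht⟩ := IsAlgClosed.exists_pow_nat_eq ((B : ℤ) : AlgebraicClosure ℚ) (n := 2)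
    (by norm_num)
  have hA' : ((A : ℤ) : AlgebraicClosure ℚ) ≠ 0 := by exact_mod_cast hA
  have hB' : ((B : ℤ) : AlgebraicClosure ℚ) ≠ 0 := by exact_mod_cast hB
  have hAB : ((A : ℤ) : AlgebraicClosure ℚ) ≠ (B : ℤ) := by exact_mod_cast h
  have hs0 : s ≠ 0 := fun h0 => hA' (by rw [← hs, h0]; ring)
  have ht0 : t ≠ 0 := fun h0 => hB' (by rw [← ht, h0]; ring)
  have hst : s + t ≠ 0 := by
    intro h0
    apply hAB
    rw [← hs, ← ht, eq_neg_of_add_eq_zero_left h0]
    ring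
  have hst' : s - t ≠ 0 := by
    intro h0
    apply hAB
    rw [← hs, ← ht, sub_eq_zero.1 h0]
  have hR : IsR ((WI A B).baseChange (AlgebraicClosure ℚ)) 0 (-(s + t) ^ 2) (-(s - t) ^ 2) := by
    have m1 : algebraMap ℚ (AlgebraicClosure ℚ) (A : ℚ) = s ^ 2 := by rw [hs]; exact map_intCast _ A
    have m2 : algebraMap ℚ (AlgebraicClosure ℚ) (B : ℚ) = t ^ 2 := by rw [ht]; exact map_intCast _ B
    refine ⟨?_, ?_, ?_, ?_, ?_⟩
    · change algebraMap ℚ (AlgebraicClosure ℚ) 0 = 0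
      exact map_zero _
    · change algebraMap ℚ (AlgebraicClosure ℚ) (2 * ((A : ℚ) + B)) = _
      rw [map_mul, map_add, m1, m2, map_ofNat]
      ring
    · change algebraMap ℚ (AlgebraicClosure ℚ) 0 = 0
      exact map_zero _
    · change algebraMap ℚ (AlgebraicClosure ℚ) (((A : ℚ) - B) ^ 2) = _
      rw [map_pow, map_sub, m1, m2]
      ring
    · change algebraMap ℚ (AlgebraicClosure ℚ) 0 = _
      rw [map_zero]
      ring
  have n1 : (0 : AlgebraicClosure ℚ) ≠ -(s + t) ^ 2 := by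
    rw [ne_comm, neg_ne_zero]
    exact pow_ne_zero 2 hst
  have n2 : (0 : AlgebraicClosure ℚ) ≠ -(s - t) ^ 2 := by
    rw [ne_comm, neg_ne_zero]
    exact pow_ne_zero 2 hst'
  have n3 : -(s + t) ^ 2 ≠ -(s - t) ^ 2 := by
    intro h0
    have h4 : 4 * (s * t) = 0 := by linear_combination -h0
    have : (4 : AlgebraicClosure ℚ) ≠ 0 := by norm_num
    rcases mul_eq_zero.1 h4 with h5 | h5
    · exact this h5
    · rcases mul_eq_zero.1 h5 with h6 | h6
      · exact hs0 h6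
      · exact ht0 h6
  have h1 := fun P => hR.div two_ne_zero n1 n2 n3 P
  obtain ⟨Q, hQ⟩ := h1 P
  exact ⟨Q, hQ.symm⟩

/-- the doubles in the Tate-Shafarevich group of the quotient -/
theorem dd_WI (h : A ≠ B) (hA : A ≠ 0) (hB : B ≠ 0) (hf : Finite (ShaTor (EQ A B) 4)) :
    ({s : Sha (WI A B) | ∃ t, t + t = s ∧ s + s = 0} : Set (Sha (WI A B))).Finite ∧
      Nat.card ({s : Sha (WI A B) | ∃ t, t + t = s ∧ s + s = 0} : Set (Sha (WI A B))) ≤
        Nat.card (ShaTor (EQ A B) 4) := by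
  classical
  obtain ⟨ψ, φ, h1, -, -⟩ := exists_NH h hA hB
  have hc : ∀ t : Sha (WI A B), φ.sha (ψ.sha t) = t + t := by
    intro t
    obtain ⟨c, rfl⟩ := cls_surj t
    rw [sha_cls, sha_cls, ← cls_add]
    exact congrArg (cls (WI A B)) (Subtype.ext (funext fun σ => h1 _ _))
  let F : ShaTor (EQ A B) 4 → Sha (WI A B) := fun y => φ.sha y.1
  have hsub : ({s : Sha (WI A B) | ∃ t, t + t = s ∧ s + s = 0} : Set (Sha (WI A B))) ⊆
      Set.range F := by
    rintro s ⟨t, ht, hs⟩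
    have h4 : 4 • t = 0 := by
      have e : 4 • t = (t + t) + (t + t) := by
        rw [show (4 : ℕ) = 2 * 2 from rfl, mul_smul, two_nsmul, two_nsmul]
      rw [e, ht, hs]
    refine ⟨⟨ψ.sha t, ?_⟩, ?_⟩
    · rw [← map_nsmul, h4, map_zero]
    · change φ.sha (ψ.sha t) = s
      rw [hc, ht]
  refine ⟨(Set.finite_range F).subset hsub, ?_⟩
  rw [Nat.card_coe_set_eq]
  refine (Set.ncard_le_ncard hsub (Set.finite_range F)).trans ?_
  rw [← Nat.card_coe_set_eq]
  exact Finite.card_range_le F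

end Pool.Agent.X217.SI
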