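import Pool.Agent.X217.EK.SelR
import Pool.Agent.X217.SI.Quo

/-!
# The limit law for the `2 ^ ∞`-Selmer groups of the three quotients
-/

set_option autoImplicit false
set_option linter.unusedSectionVars false

namespace Pool.Agent.X217.SI

open Finset Filter Topology MeasureTheory ProbabilityTheory

open Pool.Agent.X217.EK

open Pool.Agent.TH841.SH.D

open Pool.Agent.TH841.LS (WI)

open Pool.Agent.TH841.PT (EQ)

open Pool.Agent.Y676.IS (tri tri_ne)

open Pool.Agent.W307.SE (SN Sel)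

/-- the normalised variables -/
noncomputable def Za (L : ℤ → ℤ → ℝ) (n : ℕ) (x : ℤ × ℤ) (i : Fin 3) : ℝ :=
  (L (tri i x.1 x.2).1 (tri i x.1 x.2).2 - 3 / 2 * ell n) / √(5 / 2 * ell n)

/-- the statistic is close to the additive function -/
def Near (L : ℤ → ℤ → ℝ) (c : ℕ → ℕ) : Prop := ∀ (A B : ℤ), A ≠ 0 → B ≠ 0 → A ≠ B → ∀ R : ℕ,
  SN A B < 2 ^ (R + 1) → |L A B - GG A B| ≤ 3 * (TT A B).card + c R

variable {L : ℤ → ℤ → ℝ} {c : ℕ → ℕ}

/-- the comparison outside the exceptional set -/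
lemma compareA (hL : Near L c) (K R : ℕ) : ∀ᶠ n in atTop, ∀ x ∈ Sq n,
    x.1 ≠ x.2 → SN x.1 x.2 < 2 ^ (R + 1) → (TA n x.1 x.2).card ≤ K → ∀ i,
      |Za L n x i - Wv n x i| ≤ err K (c R) (fun _ => 1) i n := by
  filter_upwards [log_YY, log_div_rr.eventually_ge_atTop 2, tendsto_rr.eventually_ge_atTop 1,
    tendsto_YY.eventually_ge_atTop 1, tendsto_ell.eventually_gt_atTop 0]
    with n h1 h2 h3 h4 h5 x hx hne hSN hTA i
  obtain ⟨A, B⟩ := x
  simp only at hne hSN hTA
  have hx' := hx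
  unfold Sq at hx'
  rw [mem_product, mem_Ioc, mem_Ioc] at hx'
  obtain ⟨⟨a1, a2⟩, b1, b2⟩ := hx'
  simp only at a1 a2 b1 b2
  have hA : A ≠ 0 := by omega
  have hB : B ≠ 0 := by omega
  obtain ⟨t1, t2, t3⟩ := tri_ne hA hB hne i
  have hSN' : SN (tri i A B).1 (tri i A B).2 < 2 ^ (R + 1) := by
    rw [SN_tri i hA hB hne]
    exact hSN
  have g1 := hL _ _ t1 t2 t3 R hSN'
  have g2 := trunc hA hB hne i n
  have g3 := card_Big hA hB hne h4
  have g4 := log_prod_le hx hne
  have g5 : ((TT (tri i A B).1 (tri i A B).2).card : ℝ) ≤ K := by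
    exact_mod_cast (TT_le hx hne i).trans hTA
  -- the number of large primes
  have g6 : ((Big (YY n) A B).card : ℝ) ≤ 6 * rr n := by
    have hr : 0 < rr n := by linarith
    have k1 : Real.log n / rr n / 2 ≤ Real.log (YY n) := by
      have := (abs_le.1 h1).1
      linarith
    have k2 : 0 < Real.log n := by
      have : 0 < Real.log n / rr n := by linarith
      exact (div_pos_iff_of_pos_right hr).1 this
    have k3 : ((Big (YY n) A B).card : ℝ) * (Real.log n / rr n / 2) ≤ 3 * Real.log n :=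
      (mul_le_mul_of_nonneg_left k1 (Nat.cast_nonneg _)).trans (g3.trans g4)
    have k4 : ((Big (YY n) A B).card : ℝ) * (Real.log n / rr n / 2) =
        ((Big (YY n) A B).card : ℝ) / (2 * rr n) * Real.log n := by
      field_simp
    rw [k4] at k3
    have k5 := le_of_mul_le_mul_right k3 k2
    rw [div_le_iff₀ (by positivity)] at k5
    linarith
  have hs : 0 < √(5 / 2 * ell n) := Real.sqrt_pos.2 (by positivity)
  unfold Za Wv err
  rw [← sub_div, abs_div, abs_of_pos hs]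
  refine div_le_div_of_nonneg_right ?_ hs.le
  have e1 : L (tri i A B).1 (tri i A B).2 - 3 / 2 * ell n -
      ∑ p ∈ PP n, (Fl i p (red2 p (A, B)) - me (Fl i p)) =
      (L (tri i A B).1 (tri i A B).2 - GG (tri i A B).1 (tri i A B).2) +
      (GG (tri i A B).1 (tri i A B).2 - ∑ p ∈ PP n, Fl i p (red2 p (A, B))) +
      (∑ p ∈ PP n, me (Fl i p) - 3 / 2 * ell n) := by
    rw [sum_sub_distrib]
    ring
  rw [e1]
  refine (abs_add_le _ _).trans (add_le_add ?_ le_rfl)
  refine (abs_add_le _ _).trans (add_le_add ?_ ?_)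
  · have k2 : 3 * ((TT (tri i A B).1 (tri i A B).2).card : ℝ) ≤ 3 * K := by linarith
    have k3 : (0 : ℝ) ≤ c R := Nat.cast_nonneg _
    push_cast
    linarith
  · linarith

open Classical in
/-- the exceptional set is small -/
lemma bad_smallA (hL : Near L c) {ε : ℝ} (hε : 0 < ε) {η : ℝ}
    (hη : 0 < η) : ∀ᶠ n in atTop,
      (((Sq n).filter (fun x => ∃ i, η < |Za L n x i - Wv n x i|)).card : ℝ) ≤
        ε * (Sq n).card := by
  obtain ⟨K, hK⟩ := exists_nat_gt (16 / ε)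
  have hK0 : (0 : ℝ) < K := lt_trans (by positivity) hK
  have hK1 : 0 < K := by exact_mod_cast hK0
  obtain ⟨R, hR⟩ := sn_all (show 0 < ε / 4 by positivity)
  have herr : ∀ᶠ n in atTop, ∀ i, err K (c R) (fun _ => 1) i n ≤ η := by
    rw [eventually_all]
    intro i
    exact (err_tendsto K (c R) one_div_ell i).eventually_le_const hη
  filter_upwards [compareA hL K R, herr, eventually_ge_atTop 1,
    (tendsto_natCast_atTop_atTop (R := ℝ)).eventually_ge_atTop (4 / ε)] with n h1 h2 h3 h4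
  have hn0 : (0 : ℝ) < n := by exact_mod_cast h3
  have hsub : (Sq n).filter (fun x => ∃ i, η < |Za L n x i - Wv n x i|) ⊆
      ((Sq n).filter (fun x : ℤ × ℤ => x.1 = x.2) ∪
        (Sq n).filter (fun x : ℤ × ℤ => x.1 ≠ x.2 ∧ (2 : ℝ) ^ (R + 1) ≤ SN x.1 x.2)) ∪
        (Sq n).filter (fun x : ℤ × ℤ => K ≤ (TA n x.1 x.2).card) := by
    intro x hx
    rw [mem_filter] at hx
    obtain ⟨hx1, i, hx2⟩ := hx
    rw [mem_union, mem_union, mem_filter, mem_filter, mem_filter]
    by_contra hcon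
    rw [not_or, not_or] at hcon
    obtain ⟨⟨c1, c2⟩, c3⟩ := hcon
    have d1 : x.1 ≠ x.2 := fun h => c1 ⟨hx1, h⟩
    have d2 : SN x.1 x.2 < 2 ^ (R + 1) := by
      by_contra h
      exact c2 ⟨hx1, d1, not_lt.1 h⟩
    have d3 : (TA n x.1 x.2).card ≤ K := by
      by_contra h
      exact c3 ⟨hx1, (not_le.1 h).le⟩
    have := h1 x hx1 d1 d2 d3 i
    have := h2 i
    linarith
  have h5 := (card_le_card hsub).trans ((card_union_le _ _).trans
    (Nat.add_le_add_right (card_union_le _ _) _))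
  have h6 : (((Sq n).filter (fun x => ∃ i, η < |Za L n x i - Wv n x i|)).card : ℝ) ≤
      ((Sq n).filter (fun x : ℤ × ℤ => x.1 = x.2)).card +
      ((Sq n).filter (fun x : ℤ × ℤ => x.1 ≠ x.2 ∧ (2 : ℝ) ^ (R + 1) ≤ SN x.1 x.2)).card +
      ((Sq n).filter (fun x : ℤ × ℤ => K ≤ (TA n x.1 x.2).card)).card := by exact_mod_cast h5
  have h7 := card_diag n
  have h8 := hR n h3
  have h9 := many_TA hK1 n
  rw [card_Sq]
  have hnn : (0 : ℝ) < (n : ℝ) ^ 2 := by positivity
  have k1 : (n : ℝ) ≤ ε / 4 * n ^ 2 := by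
    rw [div_le_iff₀ hε] at h4
    nlinarith
  have k2 : 4 * (n : ℝ) ^ 2 / K ≤ ε / 4 * n ^ 2 := by
    rw [div_le_iff₀ hK0]
    rw [div_lt_iff₀ hε] at hK
    nlinarith
  linarith

open Classical in
/-- **the limit law for a statistic which is close to the additive function** -/
theorem mainA (hL : Near L c) (z : Fin 3 → ℝ) :
    Tendsto (fun n => (((Sq n).filter (fun x => x.1 ≠ x.2 ∧ ∀ i, Za L n x i ≤ z i)).card : ℝ) /
      (n : ℝ) ^ 2) atTop (𝓝 (∏ i, (gaussianReal 0 1).real (Set.Iic (z i)))) := by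
  have hne : ∀ᶠ n in atTop, (Sq n).Nonempty := by
    filter_upwards [eventually_ge_atTop 1] with n hn
    refine ⟨(1, 1), ?_⟩
    unfold Sq
    rw [mem_product, mem_Ioc]
    simp only
    omega
  have h1 := law hne (Za L) (fun t => pert hne (Za L) Wv
    (fun ε hε η hη => bad_smallA hL hε hη) t (char_W t)) z
  have h2 : Tendsto (fun n : ℕ => (((Sq n).filter (fun x => x.1 ≠ x.2 ∧
      ∀ i, Za L n x i ≤ z i)).card : ℝ) / (n : ℝ) ^ 2 -
      (((Sq n).filter (fun x => ∀ i, Za L n x i ≤ z i)).card : ℝ) / (Sq n).card) atTop (𝓝 0) := by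
    rw [tendsto_zero_iff_abs_tendsto_zero]
    have h3 : Tendsto (fun n : ℕ => ((n : ℝ))⁻¹) atTop (𝓝 0) := tendsto_inv_atTop_nhds_zero_nat
    refine squeeze_zero' (Eventually.of_forall fun n => abs_nonneg _) ?_ h3
    filter_upwards [eventually_ge_atTop 1] with n hn
    rw [Function.comp_apply]
    have hn0 : (0 : ℝ) < n := by exact_mod_cast hn
    rw [card_Sq, ← sub_div, abs_div, abs_of_pos (by positivity : (0 : ℝ) < (n : ℝ) ^ 2)]
    rw [div_le_iff₀ (by positivity)]
    have e1 : (n : ℝ)⁻¹ * (n : ℝ) ^ 2 = n := by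
      field_simp
    rw [e1]
    refine le_trans ?_ (card_diag n)
    have k1 : (Sq n).filter (fun x => x.1 ≠ x.2 ∧ ∀ i, Za L n x i ≤ z i) ⊆
        (Sq n).filter (fun x => ∀ i, Za L n x i ≤ z i) := by
      intro x hx
      rw [mem_filter] at hx ⊢
      exact ⟨hx.1, hx.2.2⟩
    have k2 : (Sq n).filter (fun x => ∀ i, Za L n x i ≤ z i) ⊆
        (Sq n).filter (fun x => x.1 ≠ x.2 ∧ ∀ i, Za L n x i ≤ z i) ∪
        (Sq n).filter (fun x : ℤ × ℤ => x.1 = x.2) := by
      intro x hx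
      rw [mem_union, mem_filter, mem_filter]
      rw [mem_filter] at hx
      by_cases h : x.1 = x.2
      · exact Or.inr ⟨hx.1, h⟩
      · exact Or.inl ⟨hx.1, h, hx.2⟩
    have k3 := card_le_card k1
    have k4 := (card_le_card k2).trans (card_union_le _ _)
    have k3' : (((Sq n).filter (fun x => x.1 ≠ x.2 ∧ ∀ i, Za L n x i ≤ z i)).card : ℝ) ≤
        ((Sq n).filter (fun x => ∀ i, Za L n x i ≤ z i)).card := by exact_mod_cast k3
    have k4' : (((Sq n).filter (fun x => ∀ i, Za L n x i ≤ z i)).card : ℝ) ≤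
        ((Sq n).filter (fun x => x.1 ≠ x.2 ∧ ∀ i, Za L n x i ≤ z i)).card +
        ((Sq n).filter (fun x : ℤ × ℤ => x.1 = x.2)).card := by exact_mod_cast k4
    rw [abs_le]
    constructor
    · linarith
    · have : (0 : ℝ) ≤ ((Sq n).filter (fun x : ℤ × ℤ => x.1 = x.2)).card := Nat.cast_nonneg _
      linarith
  have h4 := h2.add h1
  rw [zero_add] at h4
  refine (tendsto_congr fun n => ?_).1 h4
  ring

end Pool.Agent.X217.SI
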