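import Mathlib

/-!
# Splitting off a direct sum of groups of order two
-/

set_option autoImplicit false

namespace Pool.Agent.X217.SI

/-- an abelian group with finitely many elements of order two is the direct sum of groups of order
two and of a group in which all the elements of order two are doubles in the given group -/
theorem split (S : Type) [AddCommGroup S] (hfin : Finite {x : S // x + x = 0}) :
    ∃ (m : ℕ) (H : Type) (_ : AddCommGroup H), Nonempty (S ≃+ (Fin m → ZMod 2) × H) ∧
      Nat.card {h : H // h + h = 0} = Nat.card {y : S // y + y = 0 ∧ ∃ x, x + x = y} ∧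
      2 ^ m * Nat.card {y : S // y + y = 0 ∧ ∃ x, x + x = y} =
        Nat.card {x : S // x + x = 0} := by
  classical
  let T : AddSubgroup S := (nsmulAddMonoidHom (α := S) 2).ker
  have hT : ∀ x : S, x ∈ T ↔ x + x = 0 := by
    intro x
    change 2 • x = 0 ↔ _
    rw [two_nsmul]
  let R : AddSubgroup S := (nsmulAddMonoidHom (α := S) 2).range
  have hR : ∀ x : S, x ∈ R ↔ ∃ y, y + y = x := by
    intro x
    constructor
    · rintro ⟨y, hy⟩
      refine ⟨y, ?_⟩
      rw [← hy, nsmulAddMonoidHom_apply, two_nsmul]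
    · rintro ⟨y, hy⟩
      refine ⟨y, ?_⟩
      rw [nsmulAddMonoidHom_apply, two_nsmul, hy]
  let _ : Module (ZMod 2) T := AddCommGroup.zmodModule fun x => Subtype.ext x.2
  have hV : ∀ v : S ⧸ R, 2 • v = 0 := by
    intro v
    obtain ⟨x, rfl⟩ := QuotientAddGroup.mk_surjective v
    rw [← QuotientAddGroup.mk_nsmul, QuotientAddGroup.eq_zero_iff]
    exact ⟨x, rfl⟩
  let _ : Module (ZMod 2) (S ⧸ R) := AddCommGroup.zmodModule hV
  have hfT : Finite T := by
    refine Finite.of_injective (β := {x : S // x + x = 0}) (fun x => ⟨x.1, (hT _).1 x.2⟩) ?_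
    intro x y hxy
    have h5 : x.1 = y.1 := congrArg (fun z => z.1) hxy
    exact Subtype.ext h5
  let ι : T →ₗ[ZMod 2] S ⧸ R :=
    AddMonoidHom.toZModLinearMap 2 ((QuotientAddGroup.mk' R).comp T.subtype)
  have hι : ∀ t : T, ι t = QuotientAddGroup.mk t.1 := fun t => rfl
  obtain ⟨C, hC⟩ := Submodule.exists_isCompl (LinearMap.ker ι)
  have hinj : LinearMap.ker (ι.comp C.subtype) = ⊥ := by
    rw [LinearMap.ker_eq_bot']
    intro c hc
    have h1 : (c : T) ∈ LinearMap.ker ι ⊓ C := ⟨hc, c.2⟩
    rw [hC.inf_eq_bot, Submodule.mem_bot] at h1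
    exact Subtype.ext h1
  obtain ⟨ρ, hρ⟩ := LinearMap.exists_leftInverse_of_injective _ hinj
  let π : S →+ C := ρ.toAddMonoidHom.comp (QuotientAddGroup.mk' R)
  have hπ : ∀ c : C, π c.1.1 = c := fun c => LinearMap.congr_fun hρ c
  have hπR : ∀ y ∈ R, π y = 0 := by
    intro y hy
    have h1 : (QuotientAddGroup.mk y : S ⧸ R) = 0 := (QuotientAddGroup.eq_zero_iff y).2 hy
    change ρ (QuotientAddGroup.mk y) = 0
    rw [h1, map_zero]
  let inc : C →+ S := T.subtype.comp C.subtype.toAddMonoidHom
  have hinc : ∀ c : C, π (inc c) = c := hπ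
  let e : S ≃+ C × π.ker :=
    { toFun := fun x => (π x, ⟨x - inc (π x), by
        rw [AddMonoidHom.mem_ker, map_sub, hinc, sub_self]⟩)
      invFun := fun y => inc y.1 + y.2.1
      left_inv := fun x => by
        change inc (π x) + (x - inc (π x)) = x
        abel
      right_inv := fun y => by
        have h1 : π (inc y.1 + y.2.1) = y.1 := by
          rw [map_add, hinc, (AddMonoidHom.mem_ker).1 y.2.2, add_zero]
        refine Prod.ext h1 (Subtype.ext ?_)
        change inc y.1 + y.2.1 - inc (π (inc y.1 + y.2.1)) = y.2.1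
        rw [h1]
        abel
      map_add' := fun x y => by
        refine Prod.ext (map_add π x y) (Subtype.ext ?_)
        change x + y - inc (π (x + y)) = (x - inc (π x)) + (y - inc (π y))
        rw [map_add, map_add]
        abel }
  have hfC : Module.Finite (ZMod 2) C := Module.Finite.of_finite
  let b := Module.finBasis (ZMod 2) C
  let e2 : C × π.ker ≃+ (Fin (Module.finrank (ZMod 2) C) → ZMod 2) × π.ker :=
    AddEquiv.prodCongr b.equivFun.toAddEquiv (AddEquiv.refl _)
  have hD : Nat.card {h : π.ker // h + h = 0} =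
      Nat.card {y : S // y + y = 0 ∧ ∃ x, x + x = y} := by
    refine Nat.card_congr ⟨fun h => ⟨h.1.1, congrArg Subtype.val h.2, ?_⟩, fun y =>
      ⟨⟨y.1, ?_⟩, Subtype.ext y.2.1⟩, fun h => rfl, fun y => rfl⟩
    · have h2 : h.1.1 + h.1.1 = 0 := congrArg Subtype.val h.2
      let t : T := ⟨h.1.1, (hT _).2 h2⟩
      have ht : t ∈ LinearMap.ker ι ⊔ C := by
        rw [hC.sup_eq_top]
        trivial
      obtain ⟨k, hk, c, hc, hkc⟩ := Submodule.mem_sup.1 ht
      have h3 : π h.1.1 = ⟨c, hc⟩ := by
        have h4 : ι t = ι c := by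
          rw [← hkc, map_add, LinearMap.mem_ker.1 hk, zero_add]
        change ρ (ι t) = _
        rw [h4]
        exact hπ ⟨c, hc⟩
      have h5 : π h.1.1 = 0 := h.1.2
      rw [h5] at h3
      have h6 : c = 0 := (congrArg Subtype.val h3).symm
      have h7 : t ∈ LinearMap.ker ι := by
        rw [← hkc, h6, add_zero]
        exact hk
      have h8 : (QuotientAddGroup.mk h.1.1 : S ⧸ R) = 0 := h7
      exact (hR _).1 ((QuotientAddGroup.eq_zero_iff _).1 h8)
    · exact hπR _ ((hR _).2 y.2.2)
  refine ⟨Module.finrank (ZMod 2) C, π.ker, inferInstance, ⟨e.trans e2⟩, hD, ?_⟩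
  have h1 : Nat.card C = 2 ^ Module.finrank (ZMod 2) C := by
    rw [Module.natCard_eq_pow_finrank (K := ZMod 2), Nat.card_zmod]
  have h2 : Nat.card {x : S // x + x = 0} = Nat.card {c : C × π.ker // c + c = 0} := by
    refine Nat.card_congr ⟨fun x => ⟨e x.1, by rw [← map_add, x.2, map_zero]⟩, fun y =>
      ⟨e.symm y.1, by rw [← map_add, y.2, map_zero]⟩, fun x => ?_, fun y => ?_⟩
    · exact Subtype.ext (e.symm_apply_apply _)
    · exact Subtype.ext (e.apply_symm_apply _)
  have h3 : Nat.card {c : C × π.ker // c + c = 0} = Nat.card (C × {h : π.ker // h + h = 0}) := by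
    have hc2 : ∀ c : C, c + c = 0 := fun c => Subtype.ext (Subtype.ext ((hT _).1 c.1.2))
    refine Nat.card_congr ⟨fun x => (x.1.1, ⟨x.1.2, congrArg Prod.snd x.2⟩), fun y =>
      ⟨(y.1, y.2.1), Prod.ext (hc2 _) y.2.2⟩, fun x => rfl, fun y => rfl⟩
  rw [h2, h3, Nat.card_prod, h1, hD]

end Pool.Agent.X217.SI
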