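import Pool.Agent.X217.SI.Quo
import Pool.Agent.X217.SI.Lim
import Pool.Agent.X217.SI.Split

/-!
# The `2 ^ ∞`-Selmer group of the quotient: the number of summands of order two
-/

set_option autoImplicit false
set_option linter.unusedSectionVars false

namespace Pool.Agent.X217.SI

open WeierstrassCurve Pool.Agent.TH841.SH.D

open Pool.Agent.Y667.BK (SelInf)

open Pool.Agent.X217.EK (GG TT)

open Pool.Agent.TH841.LS (WI)

open Pool.Agent.TH841.PT (EQ)

open Pool.Agent.W307.SE (SN)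

attribute [-instance] DivisionRing.toRatAlgebra

/-- **one curve** -/
theorem one_sel {A B : ℤ} (hA : A ≠ 0) (hB : B ≠ 0) (hAB : A ≠ B) {R : ℕ}
    (hR : SN A B < 2 ^ (R + 1)) :
    Finite {x : SelInf (WI A B) // x + x = 0} ∧
      Nat.card {y : SelInf (WI A B) // y + y = 0 ∧ ∃ x, x + x = y} ≤ 2 ^ (3 * R + 5) ∧
      |Real.logb 2 (Nat.card {x : SelInf (WI A B) // x + x = 0}) - GG A B| ≤
        3 * (TT A B).card + (3 * R + 27) := by
  classical
  obtain ⟨f1, f2, -, f4⟩ := Pool.Agent.X217.EK.one hA hB hAB hR (le_refl 1)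
  obtain ⟨g1, -, g3, -⟩ := Pool.Agent.X217.EK.one hA hB hAB hR (j := 2) (by norm_num)
  have hrk := (Pool.Agent.X217.EK.oneS hA hB hAB hR).2
  obtain ⟨q1, q2⟩ := q2_WI hAB hA hB
  -- the elements of order two of the Tate-Shafarevich group
  let e : ShaTor (WI A B) (2 ^ 1) ≃ {s : Sha (WI A B) // s + s = 0} :=
    ⟨fun x => ⟨x.1, by
        have h : (2 : ℕ) • (show Sha (WI A B) from x.1) = 0 := x.2
        rw [two_nsmul] at h
        exact h⟩,
      fun x => ⟨x.1, by
        have h : (2 : ℕ) • x.1 = 0 := by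
          rw [two_nsmul]
          exact x.2
        exact h⟩, fun x => rfl, fun x => rfl⟩
  have hS : Finite {s : Sha (WI A B) // s + s = 0} := Finite.of_equiv _ e
  have ec : Nat.card (ShaTor (WI A B) (2 ^ 1)) = Nat.card {s : Sha (WI A B) // s + s = 0} :=
    Nat.card_congr e
  obtain ⟨t1, t2, t3⟩ := t2_card (W := WI A B) (div_WI hAB hA hB) hS
  -- the elements of order four
  have g1' : Finite (ShaTor (EQ A B) 4) := g1
  obtain ⟨d1, d2⟩ := dd_WI hAB hA hB g1'
  have c4 : Nat.card (ShaTor (EQ A B) 4) ≤ 2 ^ (2 * R + 2) := by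
    have h1 : (1 : ℝ) ≤ (2 : ℝ) ^ rk (EQ A B) := one_le_pow₀ (by norm_num)
    have h0 : (0 : ℝ) ≤ (Nat.card (ShaTor (EQ A B) (2 ^ 2)) : ℝ) := Nat.cast_nonneg _
    have h2 : (Nat.card (ShaTor (EQ A B) (2 ^ 2)) : ℝ) ^ ((1 : ℝ) / (2 : ℕ)) ≤ 2 ^ (R + 1) := by
      refine le_trans ?_ g3
      exact le_mul_of_one_le_left (Real.rpow_nonneg h0 _) h1
    have h3 : (Nat.card (ShaTor (EQ A B) (2 ^ 2)) : ℝ) ≤ (2 ^ (R + 1)) ^ 2 := by
      have h4 : ((Nat.card (ShaTor (EQ A B) (2 ^ 2)) : ℝ) ^ ((1 : ℝ) / (2 : ℕ))) ^ 2 =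
          (Nat.card (ShaTor (EQ A B) (2 ^ 2)) : ℝ) := by
        rw [← Real.rpow_natCast, ← Real.rpow_mul h0]
        norm_num
      rw [← h4]
      exact pow_le_pow_left₀ (Real.rpow_nonneg h0 _) h2 2
    rw [← pow_mul] at h3
    have h5 : (Nat.card (ShaTor (EQ A B) 4) : ℝ) ≤ ((2 ^ (2 * R + 2) : ℕ) : ℝ) := by
      push_cast
      rw [show 2 * R + 2 = (R + 1) * 2 by ring]
      exact h3
    exact_mod_cast h5
  obtain ⟨-, u2⟩ := d4_card (W := WI A B) d1 (d2.trans c4)
  have q3 : Nat.card (Q2 (WI A B)) ≤ 2 ^ (R + 3) := by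
    refine q2.trans ?_
    rw [pow_add]
    exact Nat.mul_le_mul (Nat.pow_le_pow_right (by norm_num) hrk) (by norm_num)
  let e2 : T2 (WI A B) ≃ {x : SelInf (WI A B) // x + x = 0} :=
    ⟨fun x => ⟨x.1, x.2⟩, fun x => ⟨x.1, x.2⟩, fun x => rfl, fun x => rfl⟩
  have hT := t1
  rw [Nat.card_congr e2] at t2 t3
  refine ⟨Finite.of_equiv _ e2, ?_, ?_⟩
  · refine u2.trans ((Nat.mul_le_mul_right _ q3).trans ?_)
    rw [← pow_add]
    exact Nat.pow_le_pow_right (by norm_num) (by omega)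
  · rw [ec] at f4
    have hne : Nonempty {s : Sha (WI A B) // s + s = 0} := ⟨⟨0, add_zero 0⟩⟩
    have hp : 0 < Nat.card {s : Sha (WI A B) // s + s = 0} := Nat.card_pos
    have hpT : 0 < Nat.card {x : SelInf (WI A B) // x + x = 0} := lt_of_lt_of_le hp t2
    have r1 : Real.logb 2 (Nat.card {s : Sha (WI A B) // s + s = 0}) ≤
        Real.logb 2 (Nat.card {x : SelInf (WI A B) // x + x = 0}) :=
      Real.logb_le_logb_of_le (by norm_num) (by exact_mod_cast hp) (by exact_mod_cast t2)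
    have r2 : Real.logb 2 (Nat.card {x : SelInf (WI A B) // x + x = 0}) ≤
        (R + 3) + Real.logb 2 (Nat.card {s : Sha (WI A B) // s + s = 0}) := by
      have h6 : Nat.card {x : SelInf (WI A B) // x + x = 0} ≤
          2 ^ (R + 3) * Nat.card {s : Sha (WI A B) // s + s = 0} :=
        t3.trans (Nat.mul_le_mul_right _ q3)
      have h7 : Real.logb 2 (Nat.card {x : SelInf (WI A B) // x + x = 0}) ≤
          Real.logb 2 ((2 : ℝ) ^ (R + 3) * Nat.card {s : Sha (WI A B) // s + s = 0}) :=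
        Real.logb_le_logb_of_le (by norm_num) (by exact_mod_cast hpT) (by exact_mod_cast h6)
      rw [Real.logb_mul (by positivity) (by exact_mod_cast hp.ne'), Real.logb_pow,
        Real.logb_self_eq_one (by norm_num)] at h7
      push_cast at h7
      linarith
    have f4' : |Real.logb 2 (Nat.card {s : Sha (WI A B) // s + s = 0}) - GG A B| ≤
        3 * (TT A B).card + (R + 12) * 2 := by
      refine f4.trans (le_of_eq ?_)
      push_cast
      ring
    rw [abs_le] at f4' ⊢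
    constructor
    · linarith [f4'.1]
    · linarith [f4'.2]

lemma exists_R (A B : ℤ) : ∃ R : ℕ, (SN A B : ℝ) < 2 ^ (R + 1) := by
  obtain ⟨R, hR⟩ := pow_unbounded_of_one_lt (SN A B : ℝ) (one_lt_two : (1 : ℝ) < 2)
  refine ⟨R, hR.trans_le ?_⟩
  exact pow_le_pow_right₀ (by norm_num) (Nat.le_succ R)

end Pool.Agent.X217.SI
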