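import Pool.Agent.X217.NS.Ker
import Pool.Agent.Y214.SX.Rk
import Pool.Agent.Y833.SX.Sel

/-!
# The elements of order two of the `2 ^ ∞`-Selmer group and of the Tate-Shafarevich group
-/

set_option autoImplicit false
set_option linter.unusedSectionVars false

namespace Pool.Agent.X217.SI

open WeierstrassCurve Pool.Agent.TH841.SH.D

open Pool.Agent.Y667.BK (SelInf selInfCoc cobInf IsSelInf IsTor2 IsCobInf tor_add tor_neg)

open Pool.Agent.Y676.IS (cls cls_surj cls_add cls_zero_iff cls_eq cob_shaCoc)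

open Pool.Agent.X217.NS (card_le_of_ker)

open Pool.Agent.Y833.SX (thalf)

attribute [-instance] DivisionRing.toRatAlgebra

/-- the points over the algebraic closure -/
abbrev PC (W : WeierstrassCurve ℚ) : Type := Pt W (AlgebraicClosure ℚ)

/-- the fixed points -/
noncomputable def Fx (W : WeierstrassCurve ℚ) : AddSubgroup (PC W) where
  carrier := {P | ∀ σ : Gal ℚ, act W σ.toAlgHom P = P}
  zero_mem' := fun σ => map_zero _
  add_mem' := fun {x y} h1 h2 σ => by rw [map_add, h1, h2]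
  neg_mem' := fun {x} h σ => by rw [map_neg, h]

lemma selInf_le (W : WeierstrassCurve ℚ) : selInfCoc W ≤ shaCoc W := fun _ h => h.1

/-- from the Selmer group to the Tate-Shafarevich group -/
noncomputable def toSha (W : WeierstrassCurve ℚ) : SelInf W →+ Sha W :=
  QuotientAddGroup.map ((cobInf W).addSubgroupOf (selInfCoc W)) ((cob W).addSubgroupOf (shaCoc W))
    (AddSubgroup.inclusion (selInf_le W)) (fun f h => by
      obtain ⟨P, -, hP⟩ := (AddSubgroup.mem_addSubgroupOf.1 h)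
      exact ⟨P, hP⟩)

/-- the class of a cocycle -/
noncomputable def icl (W : WeierstrassCurve ℚ) (f : selInfCoc W) : SelInf W :=
  QuotientAddGroup.mk' ((cobInf W).addSubgroupOf (selInfCoc W)) f

variable {W : WeierstrassCurve ℚ}

lemma icl_surj (x : SelInf W) : ∃ f, icl W f = x := QuotientAddGroup.mk'_surjective _ x

lemma icl_add (f g : selInfCoc W) : icl W (f + g) = icl W f + icl W g := rfl

lemma icl_sub (f g : selInfCoc W) : icl W (f - g) = icl W f - icl W g := rfl

lemma icl_zero_iff (f : selInfCoc W) : icl W f = 0 ↔ IsCobInf W f.1 := by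
  have h1 : icl W f = 0 ↔ f ∈ (QuotientAddGroup.mk' ((cobInf W).addSubgroupOf
    (selInfCoc W))).ker := Iff.rfl
  rw [h1, QuotientAddGroup.ker_mk', AddSubgroup.mem_addSubgroupOf]
  rfl

lemma toSha_icl (f : selInfCoc W) : toSha W (icl W f) = cls W ⟨f.1, f.2.1⟩ := rfl

/-- the elements of order dividing two -/
noncomputable def T2 (W : WeierstrassCurve ℚ) : AddSubgroup (SelInf W) where
  carrier := {x | x + x = 0}
  zero_mem' := add_zero 0
  add_mem' := fun {x y} h1 h2 => by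
    have e : x + y + (x + y) = (x + x) + (y + y) := by abel
    change x + y + (x + y) = 0
    rw [e, h1, h2, add_zero]
  neg_mem' := fun {x} h => by
    change -x + -x = 0
    rw [← neg_add, h, neg_zero]

/-- `G / 2 G` for the group of the fixed points -/
abbrev Q2 (W : WeierstrassCurve ℚ) : Type := Fx W ⧸ (nsmulAddMonoidHom (α := Fx W) 2).range

/-- the map on the elements of order two -/
noncomputable def f2 (W : WeierstrassCurve ℚ) : T2 W →+ Sha W := (toSha W).comp (T2 W).subtype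

lemma ker_data (x : (f2 W).ker) : ∃ (Q P T : PC W), T ∈ Fx W ∧ (∃ m : ℕ, (2 ^ m : ℕ) • P = 0) ∧
    Q + Q = P + T ∧ ∃ f : selInfCoc W, icl W f = x.1.1 ∧
      ∀ σ : Gal ℚ, f.1 σ = act W σ.toAlgHom Q - Q := by
  obtain ⟨f, hf⟩ := icl_surj x.1.1
  have h1 : toSha W x.1.1 = 0 := x.2
  rw [← hf, toSha_icl, cls_zero_iff] at h1
  obtain ⟨Q, hQ⟩ := h1
  have h2 : x.1.1 + x.1.1 = 0 := x.1.2
  rw [← hf, ← icl_add, icl_zero_iff] at h2
  obtain ⟨P, hm, hP⟩ := h2
  refine ⟨Q, P, Q + Q - P, fun σ => ?_, hm, by abel, f, hf, hQ⟩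
  have h3 : f.1 σ + f.1 σ = act W σ.toAlgHom P - P := hP σ
  have h4 : f.1 σ = act W σ.toAlgHom Q - Q := hQ σ
  rw [h4] at h3
  rw [map_sub, map_add]
  have e : act W σ.toAlgHom Q + act W σ.toAlgHom Q - act W σ.toAlgHom P =
      (act W σ.toAlgHom Q - Q + (act W σ.toAlgHom Q - Q)) - (act W σ.toAlgHom P - P) +
        (Q + Q - P) := by abel
  rw [e, h3, sub_self, zero_add]

/-- the kernel on the elements of order two -/
theorem ker_le (W : WeierstrassCurve ℚ) [Finite (Q2 W)] :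
    Finite (f2 W).ker ∧ Nat.card (f2 W).ker ≤ Nat.card (Q2 W) := by
  classical
  choose Q P T hT hP hQ f hf hfQ using ker_data (W := W)
  let g : (f2 W).ker → Q2 W := fun x => QuotientAddGroup.mk ⟨T x, hT x⟩
  have hg : Function.Injective g := by
    intro x y hxy
    have h1 := QuotientAddGroup.eq.1 hxy
    obtain ⟨S, hS⟩ := h1
    have hS' : S.1 + S.1 = -T x + T y := by
      have := congrArg Subtype.val hS
      rw [nsmulAddMonoidHom_apply, two_nsmul] at this
      exact this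
    set R : PC W := Q y - Q x - S.1 with hR
    have h2 : R + R = P y + -P x := by
      have e : R + R = (Q y + Q y) - (Q x + Q x) - (S.1 + S.1) := by
        rw [hR]
        abel
      rw [e, hQ, hQ, hS']
      abel
    have h3 : ∃ m : ℕ, (2 ^ m : ℕ) • R = 0 := by
      apply thalf
      rw [h2]
      exact tor_add (hP y) (tor_neg (hP x))
    have h4 : IsCobInf W (f y - f x).1 := by
      refine ⟨R, h3, fun σ => ?_⟩
      change (f y).1 σ - (f x).1 σ = _
      rw [hfQ, hfQ, hR, map_sub, map_sub, S.2 σ]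
      abel
    have h5 : icl W (f y - f x) = 0 := (icl_zero_iff _).2 h4
    rw [icl_sub, hf, hf, sub_eq_zero] at h5
    exact Subtype.ext (Subtype.ext h5.symm)
  exact ⟨Finite.of_injective g hg, Nat.card_le_card_of_injective g hg⟩

/-- the map on the elements of order two is surjective -/
theorem f2_surj (hdiv : ∀ P : PC W, ∃ Q, Q + Q = P) {s : Sha W} (hs : s + s = 0) :
    ∃ x : T2 W, f2 W x = s := by
  obtain ⟨c, rfl⟩ := cls_surj s
  rw [← cls_add, cls_zero_iff] at hs
  obtain ⟨P, hP⟩ := hs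
  obtain ⟨Q, rfl⟩ := hdiv P
  let b : Coch W := fun σ => act W σ.toAlgHom Q - Q
  have hb : b ∈ shaCoc W := cob_shaCoc ⟨Q, fun σ => rfl⟩
  have h0 : ∀ σ, (c.1 - b) σ + (c.1 - b) σ = 0 := by
    intro σ
    change c.1 σ - (act W σ.toAlgHom Q - Q) + (c.1 σ - (act W σ.toAlgHom Q - Q)) = 0
    have h1 : c.1 σ + c.1 σ = act W σ.toAlgHom (Q + Q) - (Q + Q) := hP σ
    have e : c.1 σ - (act W σ.toAlgHom Q - Q) + (c.1 σ - (act W σ.toAlgHom Q - Q)) =
        (c.1 σ + c.1 σ) - ((act W σ.toAlgHom Q + act W σ.toAlgHom Q) - (Q + Q)) := by abel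
    rw [e, h1, map_add, sub_self]
  have hsh : c.1 - b ∈ shaCoc W := sub_mem c.2 hb
  have hsel : c.1 - b ∈ selInfCoc W :=
    ⟨hsh, fun σ => ⟨1, by rw [pow_one, two_nsmul]; exact h0 σ⟩⟩
  have h2 : icl W ⟨c.1 - b, hsel⟩ + icl W ⟨c.1 - b, hsel⟩ = 0 := by
    rw [← icl_add]
    have e : (⟨c.1 - b, hsel⟩ + ⟨c.1 - b, hsel⟩ : selInfCoc W) = 0 :=
      Subtype.ext (funext h0)
    rw [e]
    rfl
  refine ⟨⟨icl W ⟨c.1 - b, hsel⟩, h2⟩, ?_⟩
  change toSha W (icl W ⟨c.1 - b, hsel⟩) = _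
  rw [toSha_icl]
  apply cls_eq
  change IsCob W (c.1 - b - c.1)
  refine ⟨-Q, fun σ => ?_⟩
  change c.1 σ - (act W σ.toAlgHom Q - Q) - c.1 σ = _
  rw [map_neg]
  abel

/-- **the elements of order two** -/
theorem t2_card [Finite (Q2 W)] (hdiv : ∀ P : PC W, ∃ Q, Q + Q = P)
    (hS : Finite {s : Sha W // s + s = 0}) :
    Finite (T2 W) ∧ Nat.card {s : Sha W // s + s = 0} ≤ Nat.card (T2 W) ∧
      Nat.card (T2 W) ≤ Nat.card (Q2 W) * Nat.card {s : Sha W // s + s = 0} := by
  obtain ⟨k1, k2⟩ := ker_le W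
  have hT : ({s : Sha W | s + s = 0} : Set (Sha W)).Finite := hS
  obtain ⟨g1, g2⟩ := card_le_of_ker (f2 W) k1 (S := Set.univ) (T := {s : Sha W | s + s = 0}) hT
    (fun x _ => by
      have hx : x.1 + x.1 = 0 := x.2
      change toSha W x.1 + toSha W x.1 = 0
      rw [← map_add, hx, map_zero])
  have hfin : Finite (T2 W) := Set.finite_univ_iff.1 (Set.toFinite _)
  refine ⟨hfin, ?_, ?_⟩
  · choose r hr using fun s : {s : Sha W // s + s = 0} => f2_surj hdiv s.2
    refine Nat.card_le_card_of_injective r fun s t hst => ?_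
    have := congrArg (f2 W) hst
    rw [hr, hr] at this
    exact Subtype.ext this
  · have e : Nat.card (Set.univ : Set (T2 W)) = Nat.card (T2 W) := Nat.card_congr (Equiv.Set.univ _)
    rw [e] at g2
    exact g2.trans (Nat.mul_le_mul_right _ k2)

/-- **the elements of order two that are divisible by two** -/
theorem d4_card [Finite (Q2 W)] {N : ℕ}
    (hT : ({s : Sha W | ∃ t, t + t = s ∧ s + s = 0} : Set (Sha W)).Finite)
    (hN : Nat.card ({s : Sha W | ∃ t, t + t = s ∧ s + s = 0} : Set (Sha W)) ≤ N) :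
    Finite {y : SelInf W // y + y = 0 ∧ ∃ x, x + x = y} ∧
      Nat.card {y : SelInf W // y + y = 0 ∧ ∃ x, x + x = y} ≤ Nat.card (Q2 W) * N := by
  obtain ⟨k1, k2⟩ := ker_le W
  obtain ⟨g1, g2⟩ := card_le_of_ker (f2 W) k1 (S := {y : T2 W | ∃ x, x + x = y.1})
    (T := {s : Sha W | ∃ t, t + t = s ∧ s + s = 0}) hT (fun y hy => by
      obtain ⟨x, hx⟩ := hy
      have hy2 : y.1 + y.1 = 0 := y.2
      refine ⟨toSha W x, ?_, ?_⟩
      · rw [← map_add, hx]
        rfl
      · change toSha W y.1 + toSha W y.1 = 0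
        rw [← map_add, hy2, map_zero])
  let e : {y : SelInf W // y + y = 0 ∧ ∃ x, x + x = y} ≃
      ({y : T2 W | ∃ x, x + x = y.1} : Set (T2 W)) :=
    ⟨fun y => ⟨⟨y.1, y.2.1⟩, y.2.2⟩, fun y => ⟨y.1.1, y.1.2, y.2⟩, fun y => rfl, fun y => rfl⟩
  refine ⟨Finite.of_equiv _ e.symm, ?_⟩
  rw [Nat.card_congr e]
  exact g2.trans (Nat.mul_le_mul k2 hN)

end Pool.Agent.X217.SI
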